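import Pool.Agent.GO3.Fin2

/-!
# Gauged `O(3)` sigma model: a critical point of degree one exists
-/

open MeasureTheory

namespace Pool.Agent.Results.MP_5f0afd_mp.DegreeOne

theorem result : ∃ c : O3.Conf, c.Critical ∧ Integrable c.degDensity ∧ c.degree = 1 :=
  GO3.main

end Pool.Agent.Results.MP_5f0afd_mp.DegreeOne
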