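import Pool.Agent.O3.Main2

/-!
# Gauged `O(3)` sigma model: no rotationally equivariant critical point has degree `±1`
-/

namespace Pool.Agent.Results.MP_5f0afd_mp.Equivariant

theorem result (c : O3.Conf) (hc : c.Critical) (N : ℤ) (hN : c.Equivariant N) :
    c.degree ≠ 1 ∧ c.degree ≠ -1 :=
  O3.main2 hc hN

end Pool.Agent.Results.MP_5f0afd_mp.Equivariant
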