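import Pool.Agent.O3.Main1

/-!
# Gauged `O(3)` sigma model: self-duality is equivalent to vanishing of the magnetic field on
the vacuum set `φ = n`
-/

namespace Pool.Agent.Results.MP_5f0afd_mp.FieldOnVacuum

theorem result (c : O3.Conf) (hc : c.Critical) :
    (∀ x, c.φ3 x = 1 → c.F x = 0) ↔ (c.Dual (-1) ∨ c.Dual 1) :=
  O3.main1 hc

end Pool.Agent.Results.MP_5f0afd_mp.FieldOnVacuum
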